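import Pool.Agent.D0H98.TS.SrankCore
import Pool.Agent.D0H67.TS.SStm

/-! Project TS (helper67), module SRANK. -/

set_option autoImplicit false

namespace Pool.Agent.D0H98.TS

open MvPolynomial Pool.Agent.D0H67.TS

section

variable {m n : Type}

theorem eval_minG (k : ℕ) (v : m × n → ℂ) (q : (Fin k → m) × (Fin k → n)) :
    eval v (minG m n k q) = (Matrix.of fun i j => v (q.1 i, q.2 j)).det := by
  unfold minG
  rw [RingHom.map_det]
  congr 1
  ext i j
  simp [RingHom.mapMatrix_apply]

theorem eval_minS (k : ℕ) (u : Sym2 m → ℂ) (q : (Fin k → m) × (Fin k → m)) :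
    eval u (minS m k q) = (Matrix.of fun i j => u s(q.1 i, q.2 j)).det := by
  unfold minS
  rw [RingHom.map_det]
  congr 1
  ext i j
  simp [RingHom.mapMatrix_apply]

theorem eval_brd {r : ℕ} (v : m × n → ℂ) (a : Fin r → m) (b : Fin r → n)
    (q : {i : m // i ∉ Set.range a} × {j : n // j ∉ Set.range b}) :
    eval v (brd m n a b q) = (Matrix.of fun i j => v (a i, b j)).det * v (q.1.1, q.2.1) -
      ∑ s, ∑ t, v (q.1.1, b s) * (Matrix.of fun i j => v (a i, b j)).adjugate s t *
        v (a t, q.2.1) := by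
  have h1 : ∀ s t, eval v ((Matrix.of fun i j => X (a i, b j) :
      Matrix (Fin r) (Fin r) (MvPolynomial (m × n) ℂ)).adjugate s t) =
      (Matrix.of fun i j => v (a i, b j)).adjugate s t := by
    intro s t
    have h2 := RingHom.map_adjugate (eval v) (Matrix.of fun i j => X (a i, b j) :
      Matrix (Fin r) (Fin r) (MvPolynomial (m × n) ℂ))
    have h3 := congrFun (congrFun h2 s) t
    rw [RingHom.mapMatrix_apply, Matrix.map_apply] at h3
    have h4 : (eval v).mapMatrix (Matrix.of fun i j => X (a i, b j) :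
        Matrix (Fin r) (Fin r) (MvPolynomial (m × n) ℂ)) =
        (Matrix.of fun i j => v (a i, b j)) := by
      ext i j
      simp [RingHom.mapMatrix_apply]
    rw [h3, h4]
  unfold brd
  rw [map_sub, map_mul, eval_minG, eval_X, map_sum]
  congr 1
  refine Finset.sum_congr rfl fun s _ => ?_
  rw [map_sum]
  refine Finset.sum_congr rfl fun t _ => ?_
  rw [map_mul, map_mul, eval_X, eval_X, h1]

end

theorem t_SRANK : S_RANK → S_SRANK := by
  intro hR m _ k u hu hq
  set v : m × m → ℂ := fun p => u s(p.1, p.2) with hv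
  have hv0 : v ≠ 0 := by
    intro h0
    apply hu
    funext z
    induction z using Sym2.ind with
    | _ x y => exact congrFun h0 (x, y)
  have hmin : ∀ q, eval v (minG m m k q) = 0 := by
    intro q
    rw [eval_minG, ← hq q, eval_minS]
  obtain ⟨r, hr1, hrk, a, b, ha, -, hΔ, hb⟩ := hR k v hv0 hmin
  refine ⟨r, hr1, hrk, a, ha, ?_⟩
  rw [eval_minG] at hΔ
  have hM : ∀ i j : m, v (i, j) = v (j, i) := by
    intro i j
    simp only [hv]
    rw [Sym2.eq_swap]
  have hcore := srank_core (fun i j => v (i, j)) hM a b hΔ (by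
    intro i j hi hj
    have h1 := hb (⟨i, hi⟩, ⟨j, hj⟩)
    rw [eval_brd] at h1
    exact h1)
  refine ⟨?_, fun p => ?_⟩
  · rw [eval_minS]
    exact hcore.1
  · unfold brdS
    rw [eval_rename]
    have h2 : u ∘ (fun p : m × m => s(p.1, p.2)) = v := rfl
    rw [h2, eval_brd]
    exact hcore.2 _ _

end Pool.Agent.D0H98.TS
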