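import Mathlib

/-! Project TS (helper67), module SRANK: symmetric matrices, the part over Mathlib. -/

set_option autoImplicit false

namespace Pool.Agent.D0H98.TS

open Matrix Finset

/-- A symmetric matrix whose bordered minors at an invertible submatrix `(a, b)` vanish has the
invertible principal submatrix `(a, a)`, with vanishing bordered minors. -/
theorem srank_core {m : Type} {r : ℕ} (M : m → m → ℂ) (hM : ∀ i j, M i j = M j i)
    (a b : Fin r → m) (hΔ : (Matrix.of fun i j => M (a i) (b j)).det ≠ 0)
    (hb : ∀ i j, i ∉ Set.range a → j ∉ Set.range b →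
      (Matrix.of fun i j => M (a i) (b j)).det * M i j -
        ∑ s, ∑ t, M i (b s) * (Matrix.of fun i j => M (a i) (b j)).adjugate s t * M (a t) j = 0) :
    (Matrix.of fun i j => M (a i) (a j)).det ≠ 0 ∧ ∀ i j,
      (Matrix.of fun i j => M (a i) (a j)).det * M i j -
        ∑ s, ∑ t, M i (a s) * (Matrix.of fun i j => M (a i) (a j)).adjugate s t * M (a t) j = 0 := by
  set A : Matrix (Fin r) (Fin r) ℂ := Matrix.of fun i j => M (a i) (b j) with hA
  set P : Matrix (Fin r) (Fin r) ℂ := Matrix.of fun i j => M (a i) (a j) with hP
  have hAe : ∀ i j, A i j = M (a i) (b j) := fun _ _ => rfl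
  have hPe : ∀ i j, P i j = M (a i) (a j) := fun _ _ => rfl
  -- the identity for all `i`, `j`
  have hall : ∀ i j, A.det * M i j = ∑ s, ∑ t, M i (b s) * A.adjugate s t * M (a t) j := by
    intro i j
    by_cases hj : j ∈ Set.range b
    · obtain ⟨s0, rfl⟩ := hj
      have h1 : ∀ s, ∑ t, M i (b s) * A.adjugate s t * M (a t) (b s0) =
          M i (b s) * (A.adjugate * A) s s0 := by
        intro s
        rw [Matrix.mul_apply, Finset.mul_sum]
        refine Finset.sum_congr rfl fun t _ => ?_
        rw [hAe]
        ring
      rw [Finset.sum_congr rfl fun s _ => h1 s, Matrix.adjugate_mul]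
      rw [Finset.sum_eq_single s0]
      · rw [Matrix.smul_apply, Matrix.one_apply_eq, smul_eq_mul]
        ring
      · intro s _ hs
        rw [Matrix.smul_apply, Matrix.one_apply_ne hs]
        simp
      · intro h
        exact absurd (Finset.mem_univ _) h
    · by_cases hi : i ∈ Set.range a
      · obtain ⟨t0, rfl⟩ := hi
        rw [Finset.sum_comm]
        have h1 : ∀ t, ∑ s, M (a t0) (b s) * A.adjugate s t * M (a t) j =
            (A * A.adjugate) t0 t * M (a t) j := by
          intro t
          rw [Matrix.mul_apply, Finset.sum_mul]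
          rfl
        rw [Finset.sum_congr rfl fun s _ => h1 s, Matrix.mul_adjugate]
        rw [Finset.sum_eq_single t0]
        · rw [Matrix.smul_apply, Matrix.one_apply_eq, smul_eq_mul]
          ring
        · intro s _ hs
          rw [Matrix.smul_apply, Matrix.one_apply_ne (Ne.symm hs)]
          simp
        · intro h
          exact absurd (Finset.mem_univ _) h
      · exact sub_eq_zero.1 (hb i j hi hj)
  -- the rows are combinations of the rows `a`
  set U : m → Fin r → ℂ := fun i t => ∑ s, M i (b s) * A.adjugate s t with hU
  have hrow : ∀ i j, A.det * M i j = ∑ t, U i t * M (a t) j := by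
    intro i j
    rw [hall i j, Finset.sum_comm]
    refine Finset.sum_congr rfl fun t _ => ?_
    rw [hU, Finset.sum_mul]
  have hcol : ∀ i j, A.det * M i j = ∑ t, M i (a t) * U j t := by
    intro i j
    rw [hM i j, hrow j i]
    refine Finset.sum_congr rfl fun t _ => ?_
    rw [hM (a t) i, mul_comm]
  have hPV : A.det • A = P * (Matrix.of fun s t => U (b s) t)ᵀ := by
    ext t' s
    rw [Matrix.smul_apply, smul_eq_mul, hAe, hcol, Matrix.mul_apply]
    rfl
  have hPd : P.det ≠ 0 := by
    intro h0
    have h1 := congrArg Matrix.det hPV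
    rw [Matrix.det_smul, Matrix.det_mul, h0, zero_mul] at h1
    exact (mul_ne_zero (pow_ne_zero _ hΔ) hΔ) h1
  refine ⟨hPd, fun i j => ?_⟩
  rw [sub_eq_zero]
  apply mul_left_cancel₀ hΔ
  calc A.det * (P.det * M i j) = P.det * (A.det * M i j) := by ring
    _ = ∑ t', U i t' * (P.det * M (a t') j) := by
        rw [hrow i j, Finset.mul_sum]
        refine Finset.sum_congr rfl fun t _ => ?_
        ring
    _ = ∑ t', U i t' * ∑ s, ∑ t, P t' s * P.adjugate s t * M (a t) j := by
        refine Finset.sum_congr rfl fun t' _ => ?_
        congr 1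
        rw [Finset.sum_comm]
        have h1 : ∀ t, ∑ s, P t' s * P.adjugate s t * M (a t) j =
            (P * P.adjugate) t' t * M (a t) j := by
          intro t
          rw [Matrix.mul_apply, Finset.sum_mul]
        rw [Finset.sum_congr rfl fun s _ => h1 s, Matrix.mul_adjugate]
        rw [Finset.sum_eq_single t']
        · rw [Matrix.smul_apply, Matrix.one_apply_eq, smul_eq_mul]
          ring
        · intro s _ hs
          rw [Matrix.smul_apply, Matrix.one_apply_ne (Ne.symm hs)]
          simp
        · intro h
          exact absurd (Finset.mem_univ _) h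
    _ = ∑ s, (∑ t', U i t' * P t' s) * ∑ t, P.adjugate s t * M (a t) j := by
        simp only [Finset.mul_sum, Finset.sum_mul]
        rw [Finset.sum_comm]
        refine Finset.sum_congr rfl fun s _ => ?_
        rw [Finset.sum_comm]
        refine Finset.sum_congr rfl fun t _ => Finset.sum_congr rfl fun t' _ => ?_
        ring
    _ = ∑ s, (A.det * M i (a s)) * ∑ t, P.adjugate s t * M (a t) j := by
        refine Finset.sum_congr rfl fun s _ => ?_
        rw [hrow i (a s)]
        rfl
    _ = A.det * ∑ s, ∑ t, M i (a s) * P.adjugate s t * M (a t) j := by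
        simp only [Finset.mul_sum]
        refine Finset.sum_congr rfl fun s _ => Finset.sum_congr rfl fun t _ => ?_
        ring

end Pool.Agent.D0H98.TS
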